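import Pool.Agent.H374R3.LvGroup

set_option autoImplicit false

namespace Pool.Agent.Results.MP_2579e4_al.NonAmenableLiouville

open Pool.Agent.H374R3.Lv

theorem result : ∃ (G X : Type) (_ : Group G) (_ : MulAction G X),
    Group.FG G ∧ Countable G ∧ Countable X ∧ Infinite X ∧ FaithfulSMul G X ∧
    ¬ Amenable G ∧
    ∃ μ : G → ℝ, IsProb μ ∧ NonDegenerate μ ∧ ∀ n : ℕ, MuLiouville (NSub X n) μ := by
  have hfin : Finite gens := by
    unfold gens
    exact (Set.finite_range _).union (Set.finite_range _)
  have hfg : Group.FG H := Group.closure_finite_fg gens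
  have hcX : Countable F2 := inferInstance
  have hcG : Countable H := by
    obtain ⟨S, hS, φ, hφ⟩ := (Group.fg_iff_exists_freeGroup_hom_surjective_finite).mp hfg
    exact hφ.countable
  refine ⟨H, F2, inferInstance, inferInstance, hfg, hcG, hcX, inferInstance, inferInstance,
    H_not_amenable, ?_⟩
  exact exists_measure (X := F2) (G := H) (fun Y s => ⟨Equiv.Perm.ofSubtype s, ofSubtype_mem Y s⟩)
    (fun Y s t => Subtype.ext (map_mul _ _ _)) (fun Y => Subtype.ext (map_one _))
    (fun Y s x => Equiv.Perm.ofSubtype_apply_coe s x)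

end Pool.Agent.Results.MP_2579e4_al.NonAmenableLiouville
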